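import Pool.Agent.Helper44.GJ.Stmts

/-! Module GM: critical points with negative second derivative are strict local maxima. -/

open Finset MeasureTheory Filter Topology Matrix
open scoped ENNReal ContDiff

namespace Pool.Agent.Helper44.GJ

open Pool.Agent.Helper44.GF Pool.Agent.Helper44.GN Pool.Agent.Helper44.GH

theorem gm_inj {n m : ℕ} {W : Matrix (Fin n) (Fin m) ℝ} {B : Matrix (Fin m) (Fin n) ℝ}
    (hBW : B * W = 1) {Z : Matrix (Fin n) (Fin m) ℝ} (hZ : B * Z = 0) :
    Function.Injective (W + Z).mulVec := by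
  have h1 : B * (W + Z) = 1 := by
    rw [Matrix.mul_add, hZ, add_zero, hBW]
  intro a b hab
  have h2 : B.mulVec ((W + Z).mulVec a) = B.mulVec ((W + Z).mulVec b) := by
    rw [hab]
  rw [Matrix.mulVec_mulVec, Matrix.mulVec_mulVec, h1, Matrix.one_mulVec, Matrix.one_mulVec] at h2
  exact h2

theorem gm_real {φ ψ χ : ℝ → ℝ} {t₀ : ℝ} (ht : 0 < t₀)
    (h1 : ∀ t, HasDerivAt φ (ψ t) t) (h2 : ∀ t, HasDerivAt ψ (χ t) t) (h0 : ψ 0 = 0)
    (h3 : ∀ t, 0 ≤ t → t ≤ t₀ → χ t < 0) : φ t₀ < φ 0 := by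
  have ha : StrictAntiOn ψ (Set.Icc 0 t₀) := by
    apply strictAntiOn_of_deriv_neg (convex_Icc 0 t₀)
    · exact fun t _ => (h2 t).continuousAt.continuousWithinAt
    · intro t htt
      rw [interior_Icc] at htt
      rw [(h2 t).deriv]
      exact h3 t htt.1.le htt.2.le
  have hb : StrictAntiOn φ (Set.Icc 0 t₀) := by
    apply strictAntiOn_of_deriv_neg (convex_Icc 0 t₀)
    · exact fun t _ => (h1 t).continuousAt.continuousWithinAt
    · intro t htt
      rw [interior_Icc] at htt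
      rw [(h1 t).deriv, ← h0]
      exact ha ⟨le_rfl, ht.le⟩ ⟨htt.1.le, htt.2.le⟩ htt.1
  exact hb ⟨le_rfl, ht.le⟩ ⟨ht.le, le_rfl⟩ ht

theorem gm_tube {E : Type} [NormedAddCommGroup E] [NormedSpace ℝ E] [ProperSpace E]
    (Q : E → E → ℝ) (w : E) (hQ : Continuous (fun p : E × E => Q p.1 p.2))
    (hn : ∀ e, e ≠ 0 → Q w e < 0) :
    ∃ ε : ℝ, 0 < ε ∧ ∀ x, ‖x - w‖ < ε → ∀ e, ‖e‖ = 1 → Q x e < 0 := by
  have hev : ∀ᶠ x in 𝓝 w, ∀ e ∈ Metric.sphere (0 : E) 1, Q x e < 0 := by
    apply IsCompact.eventually_forall_of_forall_eventually (isCompact_sphere (0 : E) 1)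
    intro e he
    have he0 : e ≠ 0 := by
      intro h
      rw [h, mem_sphere_iff_norm, sub_zero, norm_zero] at he
      exact zero_ne_one he
    have h5 : Tendsto (fun p : E × E => Q p.1 p.2) (𝓝 (w, e)) (𝓝 (Q w e)) := hQ.tendsto (w, e)
    exact h5.eventually_lt_const (hn e he0)
  obtain ⟨ε, hε, hball⟩ := Metric.eventually_nhds_iff.1 hev
  refine ⟨ε, hε, ?_⟩
  intro x hx e he
  have hx' : dist x w < ε := by
    rw [dist_eq_norm]
    exact hx
  apply hball hx' e
  rw [mem_sphere_iff_norm, sub_zero]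
  exact he

theorem gm_abs {E : Type} [NormedAddCommGroup E] [NormedSpace ℝ E] [ProperSpace E]
    (G : E → ℝ) (P Q : E → E → ℝ) (w : E) (hQ : Continuous (fun p : E × E => Q p.1 p.2))
    (hd1 : ∀ (e : E) (t : ℝ), HasDerivAt (fun u : ℝ => G (w + u • e)) (P (w + t • e) e) t)
    (hd2 : ∀ (e : E) (t : ℝ), HasDerivAt (fun u : ℝ => P (w + u • e) e) (Q (w + t • e) e) t)
    (hc : ∀ e, P w e = 0) (hn : ∀ e, e ≠ 0 → Q w e < 0) : SLM G w := by
  obtain ⟨ε, hε, hball⟩ := gm_tube Q w hQ hn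
  refine ⟨ε, hε, ?_⟩
  intro v hv hvε
  have ht0 : 0 < ‖v - w‖ := norm_pos_iff.2 (sub_ne_zero.2 hv)
  have hen : ‖‖v - w‖⁻¹ • (v - w)‖ = 1 := by
    rw [norm_smul, norm_inv, norm_norm]
    exact inv_mul_cancel₀ ht0.ne'
  have hve : w + ‖v - w‖ • (‖v - w‖⁻¹ • (v - w)) = v := by
    rw [smul_smul, mul_inv_cancel₀ ht0.ne', one_smul, add_sub_cancel]
  have hfin := gm_real (φ := fun u : ℝ => G (w + u • (‖v - w‖⁻¹ • (v - w))))
    (ψ := fun u : ℝ => P (w + u • (‖v - w‖⁻¹ • (v - w))) (‖v - w‖⁻¹ • (v - w)))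
    (χ := fun u : ℝ => Q (w + u • (‖v - w‖⁻¹ • (v - w))) (‖v - w‖⁻¹ • (v - w))) ht0
    (fun t => hd1 _ t) (fun t => hd2 _ t)
    (by
      simp only [zero_smul, add_zero]
      exact hc _)
    (by
      intro t ht1 ht2
      apply hball _ _ _ hen
      rw [add_sub_cancel_left, norm_smul, hen, mul_one, Real.norm_of_nonneg ht1]
      exact lt_of_le_of_lt ht2 hvε)
  simpa only [hve, zero_smul, add_zero] using hfin

theorem gm_shift {F : ℝ → ℝ} {c t : ℝ} (h : HasDerivAt F c 0) :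
    HasDerivAt (fun u : ℝ => F (u - t)) c t := by
  apply HasDerivAt.comp_sub_const
  rw [sub_self]
  exact h

/-- The subspace of the matrices with zero rows where `W` has zero rows. -/
def gm_K {n m : ℕ} (B : Matrix (Fin m) (Fin n) ℝ) (W : Matrix (Fin n) (Fin m) ℝ) :
    Submodule ℝ (Fin n → Fin m → ℝ) where
  carrier := {z | B * Matrix.of z = 0 ∧ ∀ i, W i = 0 → z i = 0}
  add_mem' := by
    intro a b ha hb
    refine ⟨(KB B).add_mem (show a ∈ KB B from ha.1) (show b ∈ KB B from hb.1), fun i hi => ?_⟩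
    rw [Pi.add_apply, ha.2 i hi, hb.2 i hi, add_zero]
  zero_mem' := ⟨(KB B).zero_mem, fun _ _ => rfl⟩
  smul_mem' := by
    intro c a ha
    refine ⟨(KB B).smul_mem c (show a ∈ KB B from ha.1), fun i hi => ?_⟩
    rw [Pi.smul_apply, ha.2 i hi, smul_zero]

theorem gm_line {n m : ℕ} {W : Matrix (Fin n) (Fin m) ℝ} {B : Matrix (Fin m) (Fin n) ℝ}
    (w e : gm_K B W) (t u : ℝ) : W + Matrix.of ((w + u • e : gm_K B W) : Fin n → Fin m → ℝ) =
      W + Matrix.of ((w + t • e : gm_K B W) : Fin n → Fin m → ℝ) +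
        (u - t) • Matrix.of (e : Fin n → Fin m → ℝ) := by
  ext i j
  simp only [Matrix.add_apply, Matrix.smul_apply, Matrix.of_apply, Submodule.coe_add,
    Submodule.coe_smul, Pi.add_apply, Pi.smul_apply, smul_eq_mul]
  ring

theorem gm_cont {n m : ℕ} (W : Matrix (Fin n) (Fin m) ℝ) (B : Matrix (Fin m) (Fin n) ℝ) :
    Continuous (fun p : gm_K B W × gm_K B W =>
      ((W + Matrix.of (p.1 : Fin n → Fin m → ℝ), Matrix.of (p.2 : Fin n → Fin m → ℝ)) :
        Matrix (Fin n) (Fin m) ℝ × Matrix (Fin n) (Fin m) ℝ)) := by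
  apply Continuous.prodMk
  · apply continuous_matrix
    intro i j
    simp only [Matrix.add_apply, Matrix.of_apply]
    exact continuous_const.add ((continuous_apply_apply i j).comp
      (continuous_subtype_val.comp continuous_fst))
  · apply continuous_matrix
    intro i j
    simp only [Matrix.of_apply]
    exact (continuous_apply_apply i j).comp (continuous_subtype_val.comp continuous_snd)

/-- The local maximum on the subspace. -/
theorem gm_sub (hD : ST_DER) (hC : ST_CTN) {n m : ℕ} {p : ℝ} (hp2 : 2 < p) (hp3 : p ≤ 3)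
    {W : Matrix (Fin n) (Fin m) ℝ} {B : Matrix (Fin m) (Fin n) ℝ} (hBW : B * W = 1)
    (hcrit : ∀ e : gm_K B W, M1 p W (Matrix.of (e : Fin n → Fin m → ℝ)) = 0)
    (hneg : ∀ e : gm_K B W, e ≠ 0 → M2 p W (Matrix.of (e : Fin n → Fin m → ℝ)) < 0) :
    SLM (fun u : gm_K B W => Mp p (W + Matrix.of (u : Fin n → Fin m → ℝ))) 0 := by
  have hcont := (hC n m p hp2 hp3).2.2.2
  have hi : ∀ u : gm_K B W, Function.Injective
      (W + Matrix.of (u : Fin n → Fin m → ℝ)).mulVec := fun u => gm_inj hBW u.2.1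
  have hΦ : Continuous (fun q : gm_K B W × gm_K B W =>
      M2 p (W + Matrix.of (q.1 : Fin n → Fin m → ℝ)) (Matrix.of (q.2 : Fin n → Fin m → ℝ))) := by
    have h := hcont.comp_continuous (gm_cont W B) (fun q => hi q.1)
    exact h
  have h0 : W + Matrix.of ((0 : gm_K B W) : Fin n → Fin m → ℝ) = W := by
    ext i j
    simp
  apply gm_abs (fun u : gm_K B W => Mp p (W + Matrix.of (u : Fin n → Fin m → ℝ)))
    (fun x e => M1 p (W + Matrix.of (x : Fin n → Fin m → ℝ)) (Matrix.of (e : Fin n → Fin m → ℝ)))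
    (fun x e => M2 p (W + Matrix.of (x : Fin n → Fin m → ℝ)) (Matrix.of (e : Fin n → Fin m → ℝ)))
    0 hΦ
  · intro e t
    have h1 := gm_shift (t := t) (hD n m p
      (W + Matrix.of ((0 + t • e : gm_K B W) : Fin n → Fin m → ℝ))
      (Matrix.of (e : Fin n → Fin m → ℝ)) hp2 hp3 (hi _)).1
    have h4 : (fun u : ℝ => Mp p (W + Matrix.of ((0 + u • e : gm_K B W) : Fin n → Fin m → ℝ)))
        = fun u : ℝ => Mp p (W + Matrix.of ((0 + t • e : gm_K B W) : Fin n → Fin m → ℝ) +
          (u - t) • Matrix.of (e : Fin n → Fin m → ℝ)) := by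
      funext u
      rw [gm_line 0 e t u]
    show HasDerivAt (fun u : ℝ => Mp p (W + Matrix.of ((0 + u • e : gm_K B W) :
      Fin n → Fin m → ℝ))) _ t
    rw [h4]
    exact h1
  · intro e t
    have h1 := gm_shift (t := t) (hD n m p
      (W + Matrix.of ((0 + t • e : gm_K B W) : Fin n → Fin m → ℝ))
      (Matrix.of (e : Fin n → Fin m → ℝ)) hp2 hp3 (hi _)).2
    have h4 : (fun u : ℝ => M1 p (W + Matrix.of ((0 + u • e : gm_K B W) : Fin n → Fin m → ℝ))
        (Matrix.of (e : Fin n → Fin m → ℝ))) = fun u : ℝ =>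
        M1 p (W + Matrix.of ((0 + t • e : gm_K B W) : Fin n → Fin m → ℝ) +
          (u - t) • Matrix.of (e : Fin n → Fin m → ℝ)) (Matrix.of (e : Fin n → Fin m → ℝ)) := by
      funext u
      rw [gm_line 0 e t u]
    rw [h4]
    exact h1
  · intro e
    show M1 p (W + Matrix.of ((0 : gm_K B W) : Fin n → Fin m → ℝ)) _ = 0
    rw [h0]
    exact hcrit e
  · intro e he
    show M2 p (W + Matrix.of ((0 : gm_K B W) : Fin n → Fin m → ℝ)) _ < 0
    rw [h0]
    exact hneg e he

/-- Comparison of the masses. -/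
theorem gm_le (hI : ST_IN0) {n m : ℕ} {p : ℝ} (hp2 : 2 < p)
    {U U' : Matrix (Fin n) (Fin m) ℝ} (hU : Function.Injective U.mulVec)
    (hU' : Function.Injective U'.mulVec) (h : ∀ i, U' i = U i ∨ U' i = 0) :
    Mp p U ≤ Mp p U' ∧ (∀ i, U' i ≠ U i → Mp p U < Mp p U') := by
  have hint : ∀ X : Matrix (Fin n) (Fin m) ℝ, Function.Injective X.mulVec →
      Integrable (ee p X) := by
    intro X hX
    have h1 := (hI n m p X (by linarith) hX).2.2 (fun _ => 1) 1 0
      aestronglyMeasurable_const (fun x => by simp)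
    simpa using h1
  have hrow : ∀ (X : Matrix (Fin n) (Fin m) ℝ) x i, X.mulVec x i = X i ⬝ᵥ x := fun _ _ _ => rfl
  have hterm : ∀ x i, |U'.mulVec x i| ^ p ≤ |U.mulVec x i| ^ p := by
    intro x i
    rcases h i with hi | hi
    · rw [hrow, hrow, hi]
    · rw [hrow, hi, zero_dotProduct, abs_zero, Real.zero_rpow (by linarith)]
      exact Real.rpow_nonneg (abs_nonneg _) _
  have hPh : ∀ x, Ph p U' x ≤ Ph p U x := fun x => Finset.sum_le_sum fun i _ => hterm x i
  have hee : ∀ x, ee p U x ≤ ee p U' x := fun x => Real.exp_le_exp.2 (neg_le_neg (hPh x))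
  refine ⟨integral_mono (hint U hU) (hint U' hU') hee, ?_⟩
  intro i hi
  have hi0 : U' i = 0 := (h i).resolve_left hi
  have hUi : U i ≠ 0 := fun h0 => hi (by rw [hi0, h0])
  have hpos : 0 < ∫ x, (ee p U' x - ee p U x) := by
    rw [integral_pos_iff_support_of_nonneg (fun x => sub_nonneg.2 (hee x))
      ((hint U' hU').sub (hint U hU))]
    have hc : Continuous fun x => ee p U' x - ee p U x :=
      (hI n m p U' (by linarith) hU').2.1.sub (hI n m p U (by linarith) hU).2.1
    refine (hc.isOpen_support).measure_pos volume ⟨U i, ?_⟩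
    rw [Function.mem_support]
    apply ne_of_gt
    rw [sub_pos]
    apply Real.exp_lt_exp.2
    apply neg_lt_neg
    apply Finset.sum_lt_sum (fun j _ => hterm _ j)
    refine ⟨i, Finset.mem_univ _, ?_⟩
    rw [hrow, hi0, zero_dotProduct, abs_zero, Real.zero_rpow (by linarith)]
    apply Real.rpow_pos_of_pos
    rw [abs_pos, hrow]
    intro h0
    exact hUi (dotProduct_self_eq_zero.1 h0)
  rw [integral_sub (hint U' hU') (hint U hU)] at hpos
  exact sub_pos.1 hpos

theorem st_GM (hD : ST_DER) (hC : ST_CTN) (hB : ST_BPP) (hCR : ST_CR) (hI : ST_IN0) : ST_GM := by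
  intro n m p V B hp2 hp3 hBV w hcrit hneg
  set W : Matrix (Fin n) (Fin m) ℝ := V + Matrix.of (w : Fin n → Fin m → ℝ) with hWd
  have hBW : B * W = 1 := by
    have h0 : B * Matrix.of (w : Fin n → Fin m → ℝ) = 0 := w.2
    rw [hWd, Matrix.mul_add, h0, add_zero, hBV]
  have hW0 : Function.Injective W.mulVec := by
    have := gm_inj hBW (Matrix.mul_zero B)
    rwa [add_zero] at this
  have hBp : Bp p W = B := hCR n m p W B hp2 hp3 hBW fun Z hZ => hcrit ⟨Z, hZ⟩
  have hB0 : ∀ i, W i = 0 → ∀ a, B a i = 0 := by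
    intro i hi a
    have := (hB n m p W hp2 hp3 hW0).2.1 i hi a
    rwa [hBp] at this
  obtain ⟨r, hr, hmax⟩ := gm_sub hD hC hp2 hp3 hBW (fun e => hcrit ⟨e.1, e.2.1⟩)
    (fun e he => hneg ⟨e.1, e.2.1⟩ (fun h => by
      apply he
      have h2 : (e : Fin n → Fin m → ℝ) = 0 := congrArg (fun x : KB B => (x : Fin n → Fin m → ℝ)) h
      exact Subtype.ext h2)
      (fun i hi => e.2.2 i hi))
  refine ⟨r, hr, ?_⟩
  intro v hv hvr
  classical
  -- the difference and its mask
  set e : Fin n → Fin m → ℝ := fun i j => (v : Fin n → Fin m → ℝ) i j - (w : Fin n → Fin m → ℝ) i j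
    with hed
  have heK : B * Matrix.of e = 0 := (v - w).2
  set e' : Fin n → Fin m → ℝ := fun i => if W i = 0 then 0 else e i with he'd
  have he'B : B * Matrix.of e' = 0 := by
    rw [← heK]
    ext a b
    rw [Matrix.mul_apply, Matrix.mul_apply]
    refine Finset.sum_congr rfl fun i _ => ?_
    simp only [Matrix.of_apply, he'd]
    by_cases hi : W i = 0
    · rw [hB0 i hi a, zero_mul, zero_mul]
    · rw [if_neg hi]
  have he'K : e' ∈ gm_K B W := ⟨he'B, fun i hi => by simp only [he'd]; rw [if_pos hi]⟩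
  have hnorm : ‖(⟨e', he'K⟩ : gm_K B W) - 0‖ < r := by
    rw [sub_zero]
    refine lt_of_le_of_lt ?_ hvr
    show ‖e'‖ ≤ ‖((v - w : KB B) : Fin n → Fin m → ℝ)‖
    rw [pi_norm_le_iff_of_nonneg (norm_nonneg _)]
    intro i
    simp only [he'd]
    by_cases hi : W i = 0
    · rw [if_pos hi, norm_zero]
      exact norm_nonneg _
    · rw [if_neg hi]
      exact norm_le_pi_norm (fun i => e i) i
  have hVv : V + Matrix.of (v : Fin n → Fin m → ℝ) = W + Matrix.of e := by
    ext i j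
    simp only [hWd, hed, Matrix.add_apply, Matrix.of_apply]
    ring
  have hrow : ∀ i, (W + Matrix.of e') i = (W + Matrix.of e) i ∨ (W + Matrix.of e') i = 0 := by
    intro i
    by_cases hi : W i = 0
    · right
      show W i + e' i = 0
      simp only [he'd]
      rw [if_pos hi, hi, add_zero]
    · left
      show W i + e' i = W i + e i
      simp only [he'd]
      rw [if_neg hi]
  have hcmp := gm_le hI hp2 (gm_inj hBW heK) (gm_inj hBW he'B) hrow
  have h00 : W + Matrix.of ((0 : gm_K B W) : Fin n → Fin m → ℝ) = W := by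
    ext i j
    simp
  show Mp p (V + Matrix.of (v : Fin n → Fin m → ℝ)) < Mp p W
  rw [hVv]
  by_cases h0 : (⟨e', he'K⟩ : gm_K B W) = 0
  · have h1 : e' = 0 := congrArg Subtype.val h0
    have h2 : e ≠ 0 := by
      intro h2
      apply hv
      apply Subtype.ext
      funext i j
      have h3 : e i j = 0 := by rw [h2]; rfl
      simp only [hed] at h3
      linarith
    obtain ⟨i, hi⟩ := Function.ne_iff.1 h2
    have h4 : W + Matrix.of e' = W := by
      rw [h1]
      ext a b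
      simp
    have h8 : Mp p (W + Matrix.of e) < Mp p (W + Matrix.of e') → Mp p (W + Matrix.of e) < Mp p W :=
      fun h => by rwa [h4] at h
    apply h8
    apply hcmp.2 i
    intro h5
    apply hi
    have h6 : W i + e' i = W i + e i := h5
    have h7 : e' i = e i := add_left_cancel h6
    rw [← h7, h1]
  · have h1 := hmax ⟨e', he'K⟩ h0 hnorm
    have h2 : Mp p (W + Matrix.of e') < Mp p W := by
      have h3 : Mp p (W + Matrix.of e') < Mp p (W + Matrix.of ((0 : gm_K B W) :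
        Fin n → Fin m → ℝ)) := h1
      rwa [h00] at h3
    exact lt_of_le_of_lt hcmp.1 h2

end Pool.Agent.Helper44.GJ
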